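import Mathlib
import Pool.Agent.Q166.SepF

/-!
# A separable permutation class which contains `Av(231)` and has a rational generating function

The class is `C = Av(2413, 3142, 12453, 14523, 35412)`; its generating function is
`(1 - 5x + 5x² - 2x³) / (1 - 6x + 9x² - 5x³ + x⁴) = 1 / (1 - x) + x² / (1 - 5x + 4x² - x³)`.
The numbers of its members of length `0, 1, 2, …` are `1, 1, 2, 6, 22, 87, 352, 1433, 5843, …`.

Proof.  Let `D`, `I` be the decreasing and the increasing permutations, `A = Av(231)`,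
`V = Av(132)`, `E = Av(2413, 3142, 1342, 3412)`; all of them
consist of separable permutations.  A separable permutation of length at least two is either a sum
or a skew sum, with a unique first indecomposable summand `u` and a rest `v`, and
* `u ⊕ v ∈ C` iff `u ∈ C`, `v ∈ E` and (`u ∈ D` or `v ∈ A`); `u ⊖ v ∈ C` iff `u, v ∈ C` and
  (`u ∈ V` or `v ∈ D`);
* `u ⊕ v ∈ E` iff `u ∈ E`, `v ∈ A`; `u ⊖ v ∈ E` iff `u, v ∈ E` and (`u ∈ D` or `v ∈ D`);
* `u ⊕ v ∈ A` iff `u, v ∈ A`; `u ⊖ v ∈ A` iff `u ∈ D`, `v ∈ A`;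
* `u ⊕ v ∈ V` iff `u ∈ V`, `v ∈ I`; `u ⊖ v ∈ V` iff `u, v ∈ V`.
This gives a system of algebraic equations for the generating functions.  With `K = 1 + x K²` the
Catalan series one gets `(1 - x) (2 - x - K) (1 - (2x - x²) K) (D f - N) = 0` for the generating
function `f` of `C`, and the square root cancels.
-/

set_option autoImplicit false

namespace Pool.Agent.Results.MP_163b0f_co.RationalClass

open Pool.Agent.Q166.Sep PowerSeries

/-- The set `Av(B)` of the permutations (words `w` which are rearrangements of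
`0, 1, …, w.length - 1`) which contain no pattern `p ∈ B`, i.e. have no subsequence which is order
isomorphic to `p`. -/
def AvSet (B : Set (List ℕ)) : Set (List ℕ) := {w | IsPerm w ∧ ∀ p ∈ B, ¬ Contains w p}

/-- A permutation class: a set of permutations closed under containment. -/
def IsClass (K : Set (List ℕ)) : Prop :=
  (∀ w ∈ K, IsPerm w) ∧ ∀ w ∈ K, ∀ v, IsPerm v → Contains w v → v ∈ K

/-- The generating function of a set of permutations. -/
noncomputable def gf (K : Set (List ℕ)) : PowerSeries ℤ :=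
  PowerSeries.mk fun n => (({w | w ∈ K ∧ w.length = n} : Set (List ℕ)).ncard : ℤ)

/-- The basis of the class. -/
def basis : Set (List ℕ) :=
  {[2, 4, 1, 3], [3, 1, 4, 2], [1, 2, 4, 5, 3], [1, 4, 5, 2, 3], [3, 5, 4, 1, 2]}

lemma mem_iff (w : List ℕ) : w ∈ AvSet basis ↔ IsPerm w ∧ Pool.Agent.Q166.Sep.C w := by
  unfold AvSet basis Pool.Agent.Q166.Sep.C S
  simp only [Set.mem_ofPred_eq, Set.mem_insert_iff, Set.mem_singleton_iff, forall_eq_or_imp,
    forall_eq]
  tauto

lemma gf_eq : gf (AvSet basis) = 1 + G Pool.Agent.Q166.Sep.C := by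
  ext n
  unfold gf G
  rw [map_add, coeff_mk, coeff_mk, coeff_one]
  split_ifs with h
  · subst h
    have h1 : {w | w ∈ AvSet basis ∧ w.length = 0} = {([] : List ℕ)} := by
      ext w
      rw [Set.mem_ofPred_eq, mem_iff, Set.mem_singleton_iff, List.length_eq_zero_iff]
      constructor
      · exact fun h => h.2
      · rintro rfl
        refine ⟨⟨isPerm_nil, ⟨?_, ?_⟩, ?_, ?_, ?_⟩, rfl⟩ <;> exact small _ _ (by simp)
    have h2 : cls Pool.Agent.Q166.Sep.C 0 = ∅ := by
      ext w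
      simp only [cls, Set.mem_ofPred_eq, Set.mem_empty_iff_false, iff_false]
      rintro ⟨-, h2, h3, -⟩
      exact h3 (List.length_eq_zero_iff.1 h2)
    rw [h1, h2]
    simp
  · have h1 : {w | w ∈ AvSet basis ∧ w.length = n} = cls Pool.Agent.Q166.Sep.C n := by
      ext w
      rw [Set.mem_ofPred_eq, mem_iff]
      simp only [cls, Set.mem_ofPred_eq]
      constructor
      · rintro ⟨⟨h1, h2⟩, h3⟩
        refine ⟨h1, h3, ?_, h2⟩
        rintro rfl
        exact h h3.symm
      · rintro ⟨h1, h2, h3, h4⟩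
        exact ⟨⟨h1, h4⟩, h2⟩
    rw [h1]
    simp

lemma cast2 : ((2 : Polynomial ℤ) : PowerSeries ℤ) = 2 :=
  map_ofNat Polynomial.coeToPowerSeries.ringHom 2
lemma cast5 : ((5 : Polynomial ℤ) : PowerSeries ℤ) = 5 :=
  map_ofNat Polynomial.coeToPowerSeries.ringHom 5
lemma cast6 : ((6 : Polynomial ℤ) : PowerSeries ℤ) = 6 :=
  map_ofNat Polynomial.coeToPowerSeries.ringHom 6
lemma cast9 : ((9 : Polynomial ℤ) : PowerSeries ℤ) = 9 :=
  map_ofNat Polynomial.coeToPowerSeries.ringHom 9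

lemma castQ : ((1 - 6 * Polynomial.X + 9 * Polynomial.X ^ 2 - 5 * Polynomial.X ^ 3 +
    Polynomial.X ^ 4 : Polynomial ℤ) : PowerSeries ℤ) =
      1 - 6 * X + 9 * X ^ 2 - 5 * X ^ 3 + X ^ 4 := by
  rw [Polynomial.coe_add, Polynomial.coe_sub, Polynomial.coe_add, Polynomial.coe_sub,
    Polynomial.coe_mul, Polynomial.coe_mul, Polynomial.coe_mul, Polynomial.coe_pow,
    Polynomial.coe_pow, Polynomial.coe_pow, Polynomial.coe_X, Polynomial.coe_one, cast5, cast6,
    cast9]

lemma castP : ((1 - 5 * Polynomial.X + 5 * Polynomial.X ^ 2 - 2 * Polynomial.X ^ 3 :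
    Polynomial ℤ) : PowerSeries ℤ) = 1 - 5 * X + 5 * X ^ 2 - 2 * X ^ 3 := by
  rw [Polynomial.coe_sub, Polynomial.coe_add, Polynomial.coe_sub,
    Polynomial.coe_mul, Polynomial.coe_mul, Polynomial.coe_mul, Polynomial.coe_pow,
    Polynomial.coe_pow, Polynomial.coe_X, Polynomial.coe_one, cast5, cast2]

/-- The class `Av(2413, 3142, 12453, 14523, 35412)` contains `Av(231)`, consists of separable
permutations, and its generating function is rational, namely
`(1 - 5x + 5x² - 2x³) / (1 - 6x + 9x² - 5x³ + x⁴)`. -/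
theorem result :
    IsClass (AvSet basis) ∧
    AvSet {[2, 3, 1]} ⊆ AvSet basis ∧
    AvSet basis ⊆ AvSet {[2, 4, 1, 3], [3, 1, 4, 2]} ∧
    (1 - 6 * X + 9 * X ^ 2 - 5 * X ^ 3 + X ^ 4) * gf (AvSet basis) =
      1 - 5 * X + 5 * X ^ 2 - 2 * X ^ 3 ∧
    ∃ P Q : Polynomial ℤ, Q.coeff 0 = 1 ∧ (Q : PowerSeries ℤ) * gf (AvSet basis) = P := by
  have hmain : (1 - 6 * X + 9 * X ^ 2 - 5 * X ^ 3 + X ^ 4) * gf (AvSet basis) =
      1 - 5 * X + 5 * X ^ 2 - 2 * X ^ 3 := by
    rw [gf_eq]
    linear_combination main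
  refine ⟨⟨fun w hw => hw.1, ?_⟩, ?_, ?_, hmain, ?_⟩
  · intro w hw v hv hc
    exact ⟨hv, fun p hp h => hw.2 p hp (hc.trans h)⟩
  · intro w hw
    rw [mem_iff]
    exact ⟨hw.1, (A.e (hw.2 _ (Set.mem_singleton _))).c⟩
  · intro w hw
    refine ⟨hw.1, ?_⟩
    intro p hp
    refine hw.2 p ?_
    unfold basis
    simp only [Set.mem_insert_iff, Set.mem_singleton_iff] at hp ⊢
    tauto
  · refine ⟨1 - 5 * Polynomial.X + 5 * Polynomial.X ^ 2 - 2 * Polynomial.X ^ 3,
      1 - 6 * Polynomial.X + 9 * Polynomial.X ^ 2 - 5 * Polynomial.X ^ 3 + Polynomial.X ^ 4, ?_, ?_⟩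
    · simp [Polynomial.coeff_zero_eq_eval_zero]
    · rw [castQ, castP]
      exact hmain

end Pool.Agent.Results.MP_163b0f_co.RationalClass
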